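import Pool.Agent.helper79.EPT.Spec

/-! # EPT row T1S -/

set_option autoImplicit false

namespace Pool.Agent.EPT

open Finset

theorem T1S (hRS2 : RS2_stmt) (hTRM : TRM_stmt) (hPHS : PHS_stmt) (hPLW : PLW_stmt) : T1S_stmt := by
  classical
  intro W₁ u α t k hW hok hrs
  obtain ⟨s₀, hs₀⟩ := hPLW 4 (32 * (1 + 16 * 2 ^ k) ^ 3)
  refine ⟨s₀, fun s hs => ?_⟩
  have hmain := hs₀ s hs
  set B : ℝ := 1 + 16 * 2 ^ k with hB
  have hB1 : 1 ≤ B := by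
    have : (0 : ℝ) < 2 ^ k := by positivity
    rw [hB]
    linarith
  set L : ℝ := 1 + Real.log ((2 ^ (16 * s * 2 ^ k) : ℕ) : ℝ) with hL
  have hLle : L ≤ B * ((s : ℝ) + 1) := by
    have h1 : Real.log ((2 ^ (16 * s * 2 ^ k) : ℕ) : ℝ) = ((16 * s * 2 ^ k : ℕ) : ℝ) * Real.log 2 := by
      push_cast
      rw [Real.log_pow]
      push_cast
      ring
    have h2 : Real.log 2 ≤ 1 := by linarith [Real.log_two_lt_d9]
    have h3 : ((16 * s * 2 ^ k : ℕ) : ℝ) * Real.log 2 ≤ ((16 * s * 2 ^ k : ℕ) : ℝ) * 1 :=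
      mul_le_mul_of_nonneg_left h2 (Nat.cast_nonneg _)
    have h4 : (0 : ℝ) < 2 ^ k := by positivity
    have h5 : (0 : ℝ) ≤ (s : ℝ) := Nat.cast_nonneg _
    rw [hL, h1, hB]
    push_cast at h3 ⊢
    nlinarith
  have hL0 : 0 ≤ L := by
    have : 0 ≤ Real.log ((2 ^ (16 * s * 2 ^ k) : ℕ) : ℝ) := Real.log_natCast_nonneg _
    rw [hL]
    linarith
  -- facts on the primes
  have hP : ∀ p ∈ SP (8 * W₁) t s (2 * s), p = α * pr α p + 1 ∧ 0 < pr α p ∧ p ≤ 8 * pr α p ∧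
      2 ^ s < p ∧ p ≤ 2 ^ (2 * s) := by
    intro p hp
    obtain ⟨h1, h2⟩ := mem_filter.1 hp
    obtain ⟨h3, h4⟩ := mem_Ioc.1 h1
    obtain ⟨e1, e2, e3, -⟩ := hRS2 W₁ u α t p hW hok hrs h2.2
    exact ⟨e1, e2, e3, h3, h4⟩
  have hinj : Set.InjOn (pr α) (SP (8 * W₁) t s (2 * s) : Set ℕ) := by
    intro p hp q hq hpq
    have h1 := (hP p hp).1
    have h2 := (hP q hq).1
    rw [hpq] at h1
    exact h1.trans h2.symm
  have hα : 1 ≤ α := by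
    rcases hok with ⟨-, h⟩ | ⟨-, h⟩ <;> omega
  have hsum : ∑ p ∈ SP (8 * W₁) t s (2 * s), 1 / (pr α p : ℝ) ≤ 2 * (s : ℝ) + 1 := by
    have h1 := hTRM ((SP (8 * W₁) t s (2 * s)).image (pr α)) (2 ^ (2 * s)) 1 le_rfl
      (Nat.one_le_two_pow) (by
        intro x hx
        obtain ⟨p, hp, rfl⟩ := mem_image.1 hx
        obtain ⟨e1, e2, e3, e4, e5⟩ := hP p hp
        refine ⟨e2, le_trans ?_ e5, one_dvd _⟩
        calc pr α p ≤ α * pr α p := Nat.le_mul_of_pos_left _ hα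
          _ ≤ p := by omega)
    rw [Finset.sum_image hinj, Nat.cast_one, div_one] at h1
    exact h1.trans ((hPHS.2 s 1 le_rfl).2.2.2)
  have h2s : (0 : ℝ) < 2 ^ s := by positivity
  have hterm : ∀ p ∈ SP (8 * W₁) t s (2 * s), 2 * L ^ 3 / (pr α p : ℝ) ^ 2 ≤
      16 * L ^ 3 / 2 ^ s * (1 / (pr α p : ℝ)) := by
    intro p hp
    obtain ⟨e1, e2, e3, e4, e5⟩ := hP p hp
    have h1 : (0 : ℝ) < (pr α p : ℝ) := by exact_mod_cast e2
    have h2 : (2 : ℝ) ^ s ≤ 8 * (pr α p : ℝ) := by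
      have : 2 ^ s ≤ 8 * pr α p := by omega
      exact_mod_cast this
    have h3 : 16 * L ^ 3 / 2 ^ s * (1 / (pr α p : ℝ)) = 2 * L ^ 3 * 8 / (2 ^ s * (pr α p : ℝ)) := by
      rw [div_mul_div_comm]
      congr 1
      ring
    rw [h3, div_le_div_iff₀ (by positivity) (by positivity)]
    have h4 : 0 ≤ 2 * L ^ 3 * (pr α p : ℝ) := by positivity
    nlinarith [mul_le_mul_of_nonneg_left h2 h4]
  have hL3 : L ^ 3 ≤ (B * ((s : ℝ) + 1)) ^ 3 := pow_le_pow_left₀ hL0 hLle 3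
  have hs0 : (0 : ℝ) ≤ (s : ℝ) := Nat.cast_nonneg _
  have hle2 : (2 : ℝ) ^ (s / 8) ≤ 2 ^ s := pow_le_pow_right₀ (by norm_num) (by omega)
  calc ∑ p ∈ SP (8 * W₁) t s (2 * s), 2 * L ^ 3 / (pr α p : ℝ) ^ 2
      ≤ ∑ p ∈ SP (8 * W₁) t s (2 * s), 16 * L ^ 3 / 2 ^ s * (1 / (pr α p : ℝ)) :=
        Finset.sum_le_sum hterm
    _ = 16 * L ^ 3 / 2 ^ s * ∑ p ∈ SP (8 * W₁) t s (2 * s), 1 / (pr α p : ℝ) := by
        rw [Finset.mul_sum]
    _ ≤ 16 * L ^ 3 / 2 ^ s * (2 * (s : ℝ) + 1) :=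
        mul_le_mul_of_nonneg_left hsum (by positivity)
    _ ≤ 1 := by
        rw [div_mul_eq_mul_div, div_le_one h2s]
        have h1 : 16 * L ^ 3 * (2 * (s : ℝ) + 1) ≤ 16 * (B * ((s : ℝ) + 1)) ^ 3 * (2 * ((s : ℝ) + 1)) := by
          refine mul_le_mul (by linarith) (by linarith) (by positivity) (by positivity)
        have h2 : 16 * (B * ((s : ℝ) + 1)) ^ 3 * (2 * ((s : ℝ) + 1)) = 32 * B ^ 3 * ((s : ℝ) + 1) ^ 4 := by
          ring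
        linarith

end Pool.Agent.EPT
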