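import Pool.Agent.helper79.EPT.Spec

/-! # EPT row TTA: small moduli -/

set_option autoImplicit false

namespace Pool.Agent.EPT

open Finset

lemma TTA_dist {a b f : ℕ} (h : f ∣ Nat.dist a b) : b % f = a % f := by
  rcases le_total a b with hab | hab
  · rw [Nat.dist_eq_sub_of_le hab] at h
    exact ((Nat.modEq_iff_dvd' hab).2 h).symm
  · rw [Nat.dist_comm, Nat.dist_eq_sub_of_le hab] at h
    exact (Nat.modEq_iff_dvd' hab).2 h

theorem TTA (hBTP : BTP_stmt) (hRS2 : RS2_stmt) : TTA_stmt := by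
  classical
  obtain ⟨C, hC, hB⟩ := hBTP
  refine ⟨C * C, one_le_mul_of_one_le_of_one_le hC hC, ?_⟩
  intro W₁ u α t hW hok hrs
  obtain ⟨s₀, hs₀⟩ := hB W₁ u α t hW hok hrs
  refine ⟨s₀, ?_⟩
  intro s hs h f h1 f1 hh hf hhW hfW
  have hW0 : 0 < W₁ := hW.pos
  have hφW : (0 : ℝ) < ((8 * W₁).totient : ℝ) := by
    exact_mod_cast Nat.totient_pos.2 (by omega)
  have hl0 : 0 < Nat.lcm h f := Nat.lcm_pos h1 f1
  have hφh : (0 : ℝ) < (h.totient : ℝ) := by exact_mod_cast Nat.totient_pos.2 h1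
  have hφf : (0 : ℝ) < (f.totient : ℝ) := by exact_mod_cast Nat.totient_pos.2 f1
  have hφl : (0 : ℝ) < ((Nat.lcm h f).totient : ℝ) := by exact_mod_cast Nat.totient_pos.2 hl0
  have hp2 : (2 : ℕ) ^ (s / 8) * 2 ^ (s / 8) ≤ 2 ^ (s / 4) := by
    rw [← pow_add]
    exact Nat.pow_le_pow_right (by norm_num) (by omega)
  have hle : Nat.lcm h f ≤ 2 ^ (s / 4) :=
    (Nat.le_of_dvd (Nat.mul_pos h1 f1) (Nat.lcm_dvd_mul h f)).trans
      ((Nat.mul_le_mul hh hf).trans hp2)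
  have hle' : h ≤ 2 ^ (s / 4) := hh.trans (Nat.pow_le_pow_right (by norm_num) (by omega))
  have hlW : Nat.Coprime (Nat.lcm h f) (8 * W₁) :=
    Nat.Coprime.coprime_dvd_left (Nat.lcm_dvd_mul h f) (Nat.Coprime.mul_left hhW hfW)
  have hmod : ∀ p ∈ SP (8 * W₁) t s (2 * s), h ∣ pr α p → p % h = 1 % h := by
    intro p hp hd
    have hp' := (mem_filter.1 hp).2.2
    obtain ⟨e1, -⟩ := hRS2 W₁ u α t p hW hok hrs hp'
    obtain ⟨c, hc⟩ := hd
    have e2 : p = h * (α * c) + 1 := by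
      rw [hc] at e1
      rw [e1]
      ring
    rw [e2, Nat.mul_add_mod]
  have hnn : ∀ p, (0 : ℝ) ≤ 1 / (pr α p : ℝ) := fun p => by positivity
  have hin : ∀ p₁ ∈ (SP (8 * W₁) t s (2 * s)).filter (fun p => h ∣ pr α p),
      ∑ p₂ ∈ (SP (8 * W₁) t s (2 * s)).filter (fun p => h ∣ pr α p ∧ f ∣ Nat.dist p₁ p),
        1 / ((pr α p₁ : ℝ) * (pr α p₂ : ℝ)) ≤
      1 / (pr α p₁ : ℝ) * (C / (((8 * W₁).totient : ℝ) * ((Nat.lcm h f).totient : ℝ))) := by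
    intro p₁ hp₁
    rw [mem_filter] at hp₁
    have e : ∀ p₂, 1 / ((pr α p₁ : ℝ) * (pr α p₂ : ℝ)) = 1 / (pr α p₁ : ℝ) * (1 / (pr α p₂ : ℝ)) :=
      fun p₂ => by rw [one_div_mul_one_div]
    simp only [e]
    rw [← Finset.mul_sum]
    refine mul_le_mul_of_nonneg_left ?_ (hnn p₁)
    refine le_trans ?_ ((hs₀ s hs (Nat.lcm h f) p₁ hl0 hlW).1 hle)
    refine Finset.sum_le_sum_of_subset_of_nonneg ?_ (fun p _ _ => hnn p)
    intro p₂ hp₂
    rw [mem_filter] at hp₂ ⊢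
    refine ⟨hp₂.1, ?_⟩
    have a1 : p₂ ≡ p₁ [MOD h] := by
      have := hmod p₂ hp₂.1 hp₂.2.1
      have := hmod p₁ hp₁.1 hp₁.2
      unfold Nat.ModEq
      omega
    have a2 : p₂ ≡ p₁ [MOD f] := TTA_dist hp₂.2.2
    have a3 : p₂ ≡ p₁ [MOD Nat.lcm h f] := by
      have b1 := (Nat.modEq_iff_dvd).1 a1
      have b2 := (Nat.modEq_iff_dvd).1 a2
      refine (Nat.modEq_iff_dvd).2 ?_
      rw [← Int.natAbs_dvd_natAbs] at b1 b2 ⊢
      simp only [Int.natAbs_natCast] at b1 b2 ⊢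
      exact Nat.lcm_dvd b1 b2
    exact a3
  have hout : ∑ p₁ ∈ (SP (8 * W₁) t s (2 * s)).filter (fun p => h ∣ pr α p), 1 / (pr α p₁ : ℝ) ≤
      C / (((8 * W₁).totient : ℝ) * (h.totient : ℝ)) := by
    refine le_trans ?_ ((hs₀ s hs h 1 h1 hhW).1 hle')
    refine Finset.sum_le_sum_of_subset_of_nonneg ?_ (fun p _ _ => hnn p)
    intro p hp
    rw [mem_filter] at hp ⊢
    exact ⟨hp.1, hmod p hp.1 hp.2⟩
  have hC0 : 0 ≤ C := le_trans zero_le_one hC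
  have hK : (0 : ℝ) ≤ C / (((8 * W₁).totient : ℝ) * ((Nat.lcm h f).totient : ℝ)) := by positivity
  have hsq : √(h.totient : ℝ) * √(f.totient : ℝ) ≤ ((Nat.lcm h f).totient : ℝ) := by
    have c1 : (h.totient : ℝ) ≤ ((Nat.lcm h f).totient : ℝ) := by
      exact_mod_cast Nat.le_of_dvd (Nat.totient_pos.2 hl0) (Nat.totient_dvd_of_dvd (Nat.dvd_lcm_left h f))
    have c2 : (f.totient : ℝ) ≤ ((Nat.lcm h f).totient : ℝ) := by
      exact_mod_cast Nat.le_of_dvd (Nat.totient_pos.2 hl0) (Nat.totient_dvd_of_dvd (Nat.dvd_lcm_right h f))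
    calc √(h.totient : ℝ) * √(f.totient : ℝ)
        ≤ √((Nat.lcm h f).totient : ℝ) * √((Nat.lcm h f).totient : ℝ) :=
          mul_le_mul (Real.sqrt_le_sqrt c1) (Real.sqrt_le_sqrt c2) (Real.sqrt_nonneg _) (Real.sqrt_nonneg _)
      _ = ((Nat.lcm h f).totient : ℝ) := Real.mul_self_sqrt hφl.le
  have hsqpos : 0 < √(h.totient : ℝ) * √(f.totient : ℝ) :=
    mul_pos (Real.sqrt_pos.2 hφh) (Real.sqrt_pos.2 hφf)
  calc TT (8 * W₁) t α s h f
      ≤ ∑ p₁ ∈ (SP (8 * W₁) t s (2 * s)).filter (fun p => h ∣ pr α p),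
        1 / (pr α p₁ : ℝ) * (C / (((8 * W₁).totient : ℝ) * ((Nat.lcm h f).totient : ℝ))) := by
        unfold TT
        exact Finset.sum_le_sum hin
    _ = (∑ p₁ ∈ (SP (8 * W₁) t s (2 * s)).filter (fun p => h ∣ pr α p), 1 / (pr α p₁ : ℝ)) *
        (C / (((8 * W₁).totient : ℝ) * ((Nat.lcm h f).totient : ℝ))) := by
        rw [Finset.sum_mul]
    _ ≤ (C / (((8 * W₁).totient : ℝ) * (h.totient : ℝ))) *
        (C / (((8 * W₁).totient : ℝ) * ((Nat.lcm h f).totient : ℝ))) :=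
        mul_le_mul_of_nonneg_right hout hK
    _ = C * C / (((8 * W₁).totient : ℝ) ^ 2 * ((h.totient : ℝ) * ((Nat.lcm h f).totient : ℝ))) := by
        rw [div_mul_div_comm]
        congr 1
        ring
    _ ≤ C * C / (((8 * W₁).totient : ℝ) ^ 2 * ((h.totient : ℝ) * (√(h.totient : ℝ) * √(f.totient : ℝ)))) := by
        refine div_le_div_of_nonneg_left (by positivity) (by positivity) ?_
        exact mul_le_mul_of_nonneg_left (mul_le_mul_of_nonneg_left hsq hφh.le) (by positivity)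

end Pool.Agent.EPT
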